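import Mathlib

/-! Quadratic lower bound for R_{F_3}(2,d): definitions. -/

set_option autoImplicit false

open Finset

namespace Pool.Agent.Lib.MP_e01d8b_co

/-- The bilinear map `F_3^n × F_3^n → F_3^k` with coefficients `A`. -/
def bil {n k : ℕ} (A : Fin k → Fin n → Fin n → ZMod 3) (x y : Fin n → ZMod 3) : Fin k → ZMod 3 :=
  fun i => ∑ p, ∑ q, A i p q * x p * y q

/-- The quadratic map `Q(x) = A(x,x)`. -/
def qf {n k : ℕ} (A : Fin k → Fin n → Fin n → ZMod 3) (x : Fin n → ZMod 3) : Fin k → ZMod 3 :=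
  bil A x x

/-- The symmetric bilinear map `B(x,y) = A(x,y) + A(y,x)`. -/
def bs {n k : ℕ} (A : Fin k → Fin n → Fin n → ZMod 3) (x y : Fin n → ZMod 3) : Fin k → ZMod 3 :=
  bil A x y + bil A y x

/-- linear combination -/
def lc {n d : ℕ} (w : Fin d → Fin n → ZMod 3) (c : Fin d → ZMod 3) : Fin n → ZMod 3 :=
  ∑ j, c j • w j

/-- number of `q` with `B(p,q)=0` inside the span of `w`. -/
def kn {n k d : ℕ} (A : Fin k → Fin n → Fin n → ZMod 3) (w : Fin d → Fin n → ZMod 3)
    (p : Fin d → ZMod 3) : ℕ :=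
  (univ.filter fun q : Fin d → ZMod 3 => bs A (lc w p) (lc w q) = 0).card

theorem bil_add_left {n k : ℕ} (A : Fin k → Fin n → Fin n → ZMod 3) (x x' y : Fin n → ZMod 3) :
    bil A (x + x') y = bil A x y + bil A x' y := by
  funext i
  simp only [bil, Pi.add_apply, mul_add, add_mul, Finset.sum_add_distrib]

theorem bil_add_right {n k : ℕ} (A : Fin k → Fin n → Fin n → ZMod 3) (x y y' : Fin n → ZMod 3) :
    bil A x (y + y') = bil A x y + bil A x y' := by
  funext i
  simp only [bil, Pi.add_apply, mul_add, Finset.sum_add_distrib]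

theorem bil_smul_left {n k : ℕ} (A : Fin k → Fin n → Fin n → ZMod 3) (c : ZMod 3)
    (x y : Fin n → ZMod 3) : bil A (c • x) y = c • bil A x y := by
  funext i
  simp only [bil, Pi.smul_apply, smul_eq_mul, Finset.mul_sum]
  refine Finset.sum_congr rfl fun p _ => Finset.sum_congr rfl fun q _ => by ring

theorem bil_smul_right {n k : ℕ} (A : Fin k → Fin n → Fin n → ZMod 3) (c : ZMod 3)
    (x y : Fin n → ZMod 3) : bil A x (c • y) = c • bil A x y := by
  funext i
  simp only [bil, Pi.smul_apply, smul_eq_mul, Finset.mul_sum]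
  refine Finset.sum_congr rfl fun p _ => Finset.sum_congr rfl fun q _ => by ring

theorem bil_neg_left {n k : ℕ} (A : Fin k → Fin n → Fin n → ZMod 3) (x y : Fin n → ZMod 3) :
    bil A (-x) y = -bil A x y := by
  have h := bil_smul_left A (-1) x y
  simpa using h

theorem bil_neg_right {n k : ℕ} (A : Fin k → Fin n → Fin n → ZMod 3) (x y : Fin n → ZMod 3) :
    bil A x (-y) = -bil A x y := by
  have h := bil_smul_right A (-1) x y
  simpa using h

theorem bil_add_coef {n k : ℕ} (A A' : Fin k → Fin n → Fin n → ZMod 3) (x y : Fin n → ZMod 3) :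
    bil (A + A') x y = bil A x y + bil A' x y := by
  funext i
  simp only [bil, Pi.add_apply, add_mul, Finset.sum_add_distrib]

theorem bil_smul_coef {n k : ℕ} (c : ZMod 3) (A : Fin k → Fin n → Fin n → ZMod 3)
    (x y : Fin n → ZMod 3) : bil (c • A) x y = c • bil A x y := by
  funext i
  simp only [bil, Pi.smul_apply, smul_eq_mul, Finset.mul_sum]
  refine Finset.sum_congr rfl fun p _ => Finset.sum_congr rfl fun q _ => by ring

theorem qf_neg {n k : ℕ} (A : Fin k → Fin n → Fin n → ZMod 3) (x : Fin n → ZMod 3) :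
    qf A (-x) = qf A x := by
  simp [qf, bil_neg_left, bil_neg_right]

theorem qf_plane {n k : ℕ} (A : Fin k → Fin n → Fin n → ZMod 3) (x y : Fin n → ZMod 3) :
    qf A x + qf A y + qf A (x + y) + qf A (x - y) = 0 := by
  have h3 : (3 : ZMod 3) = 0 := by decide
  rw [sub_eq_add_neg]
  simp only [qf, bil_add_left, bil_add_right, bil_neg_left, bil_neg_right]
  have : ∀ a b c e : Fin k → ZMod 3,
      a + b + (a + c + (e + b)) + (a + -e + (-c + - -b)) = 0 := by
    intro a b c e
    funext i
    simp only [Pi.add_apply, Pi.neg_apply, Pi.zero_apply]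
    have : a i + b i + (a i + c i + (e i + b i)) + (a i + -e i + (-c i + - -b i))
      = 3 * a i + 3 * b i := by ring
    rw [this, h3]; ring
  convert this (bil A x x) (bil A y y) (bil A x y) (bil A y x) using 2
  all_goals try abel

theorem lc_add {n d : ℕ} (w : Fin d → Fin n → ZMod 3) (c c' : Fin d → ZMod 3) :
    lc w (c + c') = lc w c + lc w c' := by
  simp [lc, add_smul, Finset.sum_add_distrib]

theorem lc_smul {n d : ℕ} (w : Fin d → Fin n → ZMod 3) (a : ZMod 3) (c : Fin d → ZMod 3) :
    lc w (a • c) = a • lc w c := by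
  simp [lc, mul_smul, Finset.smul_sum]

theorem lc_single {n d : ℕ} (w : Fin d → Fin n → ZMod 3) (j : Fin d) :
    lc w (Pi.single j 1) = w j := by
  simp [lc, Pi.single_apply]

end Pool.Agent.Lib.MP_e01d8b_co
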