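import Mathlib
import Pool.Agent.Lib.MP_e01d8b_co.Defs

/-! Collisions of a quadratic map on the span of `w`. -/

set_option autoImplicit false

open Finset

namespace Pool.Agent.Lib.MP_e01d8b_co

private theorem two_smul_eq_zero {k : ℕ} (a : Fin k → ZMod 3) : a + a = 0 ↔ a = 0 := by
  constructor
  · intro h
    have h3 : (3 : ZMod 3) = 0 := by decide
    funext i
    have hi := congrFun h i
    simp only [Pi.add_apply, Pi.zero_apply] at hi
    have : a i = 3 * a i - (a i + a i) := by ring
    rw [this, hi, h3]; simp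
  · intro h; simp [h]

private theorem bs_pm {n k : ℕ} (A : Fin k → Fin n → Fin n → ZMod 3) (v v' : Fin n → ZMod 3) :
    bs A (v + v') (v - v') = (qf A v - qf A v') + (qf A v - qf A v') := by
  rw [sub_eq_add_neg v v']
  simp only [bs, qf, bil_add_left, bil_add_right, bil_neg_left, bil_neg_right]
  abel

/-- `Q(v) = Q(v')` iff `B(v+v', v-v') = 0`. -/
theorem coll_iff {n k : ℕ} (A : Fin k → Fin n → Fin n → ZMod 3) (v v' : Fin n → ZMod 3) :
    qf A v = qf A v' ↔ bs A (v + v') (v - v') = 0 := by
  rw [bs_pm, two_smul_eq_zero, sub_eq_zero]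

private theorem lc_sub {n d : ℕ} (w : Fin d → Fin n → ZMod 3) (c c' : Fin d → ZMod 3) :
    lc w (c - c') = lc w c - lc w c' := by
  have h := lc_add w (c - c') c'
  rw [sub_add_cancel] at h
  rw [h]; abel

/-- The number of collisions is `∑_p #{q : B(p,q)=0}`. -/
theorem coll_count {n k d : ℕ} (A : Fin k → Fin n → Fin n → ZMod 3)
    (w : Fin d → Fin n → ZMod 3) :
    (univ.filter fun z : (Fin d → ZMod 3) × (Fin d → ZMod 3) =>
      qf A (lc w z.1) = qf A (lc w z.2)).card = ∑ p, kn A w p := by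
  have h1 : ∑ p, kn A w p = (univ.filter fun z : (Fin d → ZMod 3) × (Fin d → ZMod 3) =>
      bs A (lc w z.1) (lc w z.2) = 0).card := by
    rw [Finset.card_filter, ← Finset.univ_product_univ, Finset.sum_product]
    refine Finset.sum_congr rfl fun p _ => ?_
    rw [kn, Finset.card_filter]
  rw [h1]
  have h3 : (3 : ZMod 3) = 0 := by decide
  refine Finset.card_bij' (fun z _ => (z.1 + z.2, z.1 - z.2))
    (fun z _ => (-(z.1 + z.2), z.2 - z.1)) ?_ ?_ ?_ ?_
  · intro z hz
    simp only [Finset.mem_filter, Finset.mem_univ, true_and] at hz ⊢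
    rw [lc_add, lc_sub]
    exact (coll_iff A _ _).1 hz
  · intro z hz
    simp only [Finset.mem_filter, Finset.mem_univ, true_and] at hz ⊢
    rw [coll_iff, ← lc_add, ← lc_sub]
    have e1 : -(z.1 + z.2) + (z.2 - z.1) = z.1 := by
      funext i
      simp only [Pi.add_apply, Pi.neg_apply, Pi.sub_apply]
      have : -(z.1 i + z.2 i) + (z.2 i - z.1 i) = z.1 i - 3 * z.1 i := by ring
      rw [this, h3]; ring
    have e2 : -(z.1 + z.2) - (z.2 - z.1) = z.2 := by
      funext i
      simp only [Pi.neg_apply, Pi.sub_apply, Pi.add_apply]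
      have : -(z.1 i + z.2 i) - (z.2 i - z.1 i) = z.2 i - 3 * z.2 i := by ring
      rw [this, h3]; ring
    rw [e1, e2]; exact hz
  · intro z _
    have e1 : -((z.1 + z.2) + (z.1 - z.2)) = z.1 := by
      funext i
      simp only [Pi.add_apply, Pi.neg_apply, Pi.sub_apply]
      have : -((z.1 i + z.2 i) + (z.1 i - z.2 i)) = z.1 i - 3 * z.1 i := by ring
      rw [this, h3]; ring
    have e2 : (z.1 - z.2) - (z.1 + z.2) = z.2 := by
      funext i
      simp only [Pi.sub_apply, Pi.add_apply]
      have : (z.1 i - z.2 i) - (z.1 i + z.2 i) = z.2 i - 3 * z.2 i := by ring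
      rw [this, h3]; ring
    exact Prod.ext e1 e2
  · intro z _
    have e1 : -(z.1 + z.2) + (z.2 - z.1) = z.1 := by
      funext i
      simp only [Pi.add_apply, Pi.neg_apply, Pi.sub_apply]
      have : -(z.1 i + z.2 i) + (z.2 i - z.1 i) = z.1 i - 3 * z.1 i := by ring
      rw [this, h3]; ring
    have e2 : -(z.1 + z.2) - (z.2 - z.1) = z.2 := by
      funext i
      simp only [Pi.neg_apply, Pi.sub_apply, Pi.add_apply]
      have : -(z.1 i + z.2 i) - (z.2 i - z.1 i) = z.2 i - 3 * z.2 i := by ring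
      rw [this, h3]; ring
    exact Prod.ext e1 e2

/-- If only few `p` have a large kernel, the image of `Q` on the span of `w` is large. -/
theorem coll {n k d r : ℕ} (A : Fin k → Fin n → Fin n → ZMod 3)
    (w : Fin d → Fin n → ZMod 3) (hr : r + 1 ≤ d)
    (hL : (univ.filter fun p : Fin d → ZMod 3 => 3 ^ (d - r - 1) < kn A w p).card
      ≤ 3 ^ (d - r - 1)) :
    3 ^ (r + 1) ≤ 2 * (univ.image fun c : Fin d → ZMod 3 => qf A (lc w c)).card := by
  classical
  set I := univ.image fun c : Fin d → ZMod 3 => qf A (lc w c) with hI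
  set F : (Fin d → ZMod 3) → (Fin k → ZMod 3) := fun c => qf A (lc w c) with hF
  have hcardd : Fintype.card (Fin d → ZMod 3) = 3 ^ d := by simp
  -- bound on sum of kn
  have hsum : ∑ p, kn A w p ≤ 2 * 3 ^ (d + (d - r - 1)) := by
    rw [← Finset.sum_filter_add_sum_filter_not univ
      (fun p : Fin d → ZMod 3 => 3 ^ (d - r - 1) < kn A w p)]
    have b1 : ∑ p ∈ univ.filter (fun p : Fin d → ZMod 3 => 3 ^ (d - r - 1) < kn A w p), kn A w p
        ≤ 3 ^ (d - r - 1) * 3 ^ d := by
      calc _ ≤ ∑ p ∈ univ.filter (fun p : Fin d → ZMod 3 => 3 ^ (d - r - 1) < kn A w p), 3 ^ d := by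
            refine Finset.sum_le_sum fun p _ => ?_
            calc kn A w p ≤ (univ : Finset (Fin d → ZMod 3)).card := Finset.card_filter_le _ _
              _ = 3 ^ d := by rw [Finset.card_univ, hcardd]
        _ = _ * 3 ^ d := by rw [Finset.sum_const, smul_eq_mul]
        _ ≤ _ := Nat.mul_le_mul_right _ hL
    have b2 : ∑ p ∈ univ.filter (fun p : Fin d → ZMod 3 => ¬ 3 ^ (d - r - 1) < kn A w p), kn A w p
        ≤ 3 ^ d * 3 ^ (d - r - 1) := by
      calc _ ≤ ∑ p ∈ univ.filter (fun p : Fin d → ZMod 3 => ¬ 3 ^ (d - r - 1) < kn A w p),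
              3 ^ (d - r - 1) := by
            refine Finset.sum_le_sum fun p hp => ?_
            exact not_lt.1 (Finset.mem_filter.1 hp).2
        _ = _ * 3 ^ (d - r - 1) := by rw [Finset.sum_const, smul_eq_mul]
        _ ≤ _ := by
            refine Nat.mul_le_mul_right _ ?_
            calc _ ≤ (univ : Finset (Fin d → ZMod 3)).card := Finset.card_filter_le _ _
              _ = 3 ^ d := by rw [Finset.card_univ, hcardd]
    calc _ ≤ 3 ^ (d - r - 1) * 3 ^ d + 3 ^ d * 3 ^ (d - r - 1) := Nat.add_le_add b1 b2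
      _ = 2 * 3 ^ (d + (d - r - 1)) := by rw [pow_add]; ring
  -- collisions
  have hcol : (univ.filter fun z : (Fin d → ZMod 3) × (Fin d → ZMod 3) => F z.1 = F z.2).card
      = ∑ y ∈ I, (univ.filter fun c => F c = y).card ^ 2 := by
    have : (univ.filter fun z : (Fin d → ZMod 3) × (Fin d → ZMod 3) => F z.1 = F z.2).card
        = ∑ c : Fin d → ZMod 3, (univ.filter fun c' => F c' = F c).card := by
      rw [Finset.card_filter, ← Finset.univ_product_univ, Finset.sum_product]
      refine Finset.sum_congr rfl fun p _ => ?_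
      rw [Finset.card_filter]
      refine Finset.sum_congr rfl fun q _ => ?_
      by_cases h : F p = F q
      · simp [h]
      · have h' : ¬ F q = F p := fun e => h e.symm
        simp [h, h']
    rw [this, ← Finset.sum_fiberwise_of_maps_to (s := univ) (t := I) (g := F)
      (fun c _ => Finset.mem_image_of_mem _ (Finset.mem_univ c))]
    refine Finset.sum_congr rfl fun y _ => ?_
    calc _ = ∑ c ∈ univ.filter (fun c => F c = y), (univ.filter fun c' => F c' = y).card := by
          refine Finset.sum_congr rfl fun c hc => ?_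
          rw [(Finset.mem_filter.1 hc).2]
      _ = _ := by rw [Finset.sum_const, smul_eq_mul, sq]
  have htot : ∑ y ∈ I, (univ.filter fun c => F c = y).card = 3 ^ d := by
    rw [← hcardd, ← Finset.card_univ]
    exact (Finset.card_eq_sum_card_fiberwise
      (fun c _ => Finset.mem_image_of_mem _ (Finset.mem_univ c))).symm
  have hcs : (3 ^ d) ^ 2 ≤ I.card * ∑ y ∈ I, (univ.filter fun c => F c = y).card ^ 2 := by
    rw [← htot]
    exact sq_sum_le_card_mul_sum_sq
  have h5 : (3 ^ d) ^ 2 ≤ I.card * (2 * 3 ^ (d + (d - r - 1))) := by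
    refine hcs.trans (Nat.mul_le_mul_left _ ?_)
    rw [← hcol, hF, coll_count]; exact hsum
  have h6 : (3 ^ d) ^ 2 = 3 ^ (r + 1) * 3 ^ (d + (d - r - 1)) := by
    rw [← pow_mul, ← pow_add]; congr 1; omega
  rw [h6] at h5
  have h7 : I.card * (2 * 3 ^ (d + (d - r - 1))) = (2 * I.card) * 3 ^ (d + (d - r - 1)) := by ring
  rw [h7] at h5
  exact Nat.le_of_mul_le_mul_right h5 (by positivity)

end Pool.Agent.Lib.MP_e01d8b_co
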