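import Mathlib
import Pool.Agent.Lib.MP_e01d8b_co.Defs

/-! Number of `A` with prescribed orthogonality relations. -/

set_option autoImplicit false

open Finset

namespace Pool.Agent.Lib.MP_e01d8b_co

private theorem exists_dual {s k : ℕ} (v : Fin s → Fin k → ZMod 3)
    (hv : LinearIndependent (ZMod 3) v) :
    ∃ ψ : Fin s → Fin k → ZMod 3, ∀ i i', v i ⬝ᵥ ψ i' = if i' = i then 1 else 0 := by
  classical
  have hker : LinearMap.ker (Fintype.linearCombination (ZMod 3) v) = ⊥ := by
    rw [LinearMap.ker_eq_bot']
    intro c hc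
    exact funext fun i => Fintype.linearIndependent_iff.1 hv c
      (by rw [← hc, Fintype.linearCombination_apply]) i
  obtain ⟨P, hP⟩ := LinearMap.exists_leftInverse_of_injective
    (Fintype.linearCombination (ZMod 3) v) hker
  have hPv : ∀ i, P (v i) = Pi.single i 1 := by
    intro i
    have h1 := LinearMap.congr_fun hP (Pi.single i 1)
    simp only [LinearMap.comp_apply, LinearMap.id_apply] at h1
    rw [← h1]
    congr 1
    rw [Fintype.linearCombination_apply]
    simp [Pi.single_apply]
  refine ⟨fun i' κ => P (Pi.single κ 1) i', fun i i' => ?_⟩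
  have h2 : v i = ∑ κ, v i κ • (Pi.single κ 1 : Fin k → ZMod 3) := by
    funext j
    simp [Finset.sum_apply, Pi.single_apply]
  have h3 : P (v i) = ∑ κ, v i κ • P (Pi.single κ 1) := by
    conv_lhs => rw [h2]
    rw [map_sum]
    exact Finset.sum_congr rfl fun κ _ => by rw [map_smul]
  have h4 := congrFun (hPv i) i'
  rw [h3] at h4
  simp only [Finset.sum_apply, Pi.smul_apply, smul_eq_mul, Pi.single_apply] at h4
  rw [dotProduct]
  exact h4

private theorem bs_tens {n k : ℕ} (ψ : Fin k → ZMod 3) (b c x y : Fin n → ZMod 3) :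
    bs (fun κ p q => ψ κ * b p * c q) x y
      = ((x ⬝ᵥ b) * (y ⬝ᵥ c) + (y ⬝ᵥ b) * (x ⬝ᵥ c)) • ψ := by
  have h : ∀ x y : Fin n → ZMod 3, bil (fun κ p q => ψ κ * b p * c q) x y
      = ((x ⬝ᵥ b) * (y ⬝ᵥ c)) • ψ := by
    intro x y
    funext κ
    simp only [bil, Pi.smul_apply, smul_eq_mul, dotProduct]
    rw [Finset.sum_mul_sum, Finset.sum_mul]
    refine Finset.sum_congr rfl fun p _ => ?_
    rw [Finset.sum_mul]
    refine Finset.sum_congr rfl fun q _ => ?_
    ring
  rw [bs, h, h, add_smul]

theorem countA {n k d t s : ℕ} (w : Fin d → Fin n → ZMod 3) (hw : LinearIndependent (ZMod 3) w)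
    (Φ : Fin t → Fin s → Fin k → ZMod 3) (hΦ : ∀ j, LinearIndependent (ZMod 3) (Φ j))
    (htd : t ≤ d) :
    (univ.filter fun A : Fin k → Fin n → Fin n → ZMod 3 =>
      ∀ (j : Fin t) (i : Fin s) (l : Fin d), t ≤ (l : ℕ) →
        Φ j i ⬝ᵥ bs A (w (Fin.castLE htd j)) (w l) = 0).card * 3 ^ (t * s * (d - t))
      ≤ 3 ^ (k * n * n) := by
  classical
  let ix : Fin (d - t) → Fin d := fun l => ⟨t + l, by have := l.2; omega⟩
  let Λ : (Fin k → Fin n → Fin n → ZMod 3) →ₗ[ZMod 3] (Fin t → Fin s → Fin (d - t) → ZMod 3) :=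
    { toFun := fun A j i l => Φ j i ⬝ᵥ bs A (w (Fin.castLE htd j)) (w (ix l))
      map_add' := by
        intro A A'
        funext j i l
        simp only [bs, bil_add_coef, Pi.add_apply, dotProduct_add]
        ring
      map_smul' := by
        intro c A
        funext j i l
        simp only [bs, bil_smul_coef, Pi.smul_apply, dotProduct_add, dotProduct_smul,
          RingHom.id_apply, smul_eq_mul]
        try ring }
  have hsurj : Function.Surjective Λ := by
    obtain ⟨ws, hws⟩ := exists_dual w hw
    choose ψ hψ using fun j => exists_dual (Φ j) (hΦ j)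
    intro τ
    refine ⟨∑ j, ∑ i, ∑ l, τ j i l • (fun κ p q => ψ j i κ * ws (Fin.castLE htd j) p *
      ws (ix l) q : Fin k → Fin n → Fin n → ZMod 3), ?_⟩
    rw [map_sum]
    simp only [map_sum, map_smul]
    funext j0 i0 l0
    simp only [Finset.sum_apply, Pi.smul_apply, smul_eq_mul]
    have hval : ∀ j i l, Λ (fun κ p q => ψ j i κ * ws (Fin.castLE htd j) p * ws (ix l) q) j0 i0 l0
        = if j = j0 then (if i = i0 then (if l = l0 then 1 else 0) else 0) else 0 := by
      intro j i l
      change Φ j0 i0 ⬝ᵥ bs (fun κ p q => ψ j i κ * ws (Fin.castLE htd j) p * ws (ix l) q)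
        (w (Fin.castLE htd j0)) (w (ix l0)) = _
      rw [bs_tens, hws, hws, hws, hws, dotProduct_smul]
      have e1 : (Fin.castLE htd j = Fin.castLE htd j0) ↔ j = j0 := by
        constructor
        · intro h; exact Fin.castLE_injective htd h
        · rintro rfl; rfl
      have e2 : (ix l = ix l0) ↔ l = l0 := by
        constructor
        · intro h
          have : t + (l : ℕ) = t + (l0 : ℕ) := congrArg Fin.val h
          exact Fin.ext (by omega)
        · rintro rfl; rfl
      have e3 : ¬ (Fin.castLE htd j = ix l0) := by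
        intro h
        have h1 : (j : ℕ) = t + (l0 : ℕ) := congrArg Fin.val h
        have := j.2
        omega
      rw [if_neg e3, zero_mul, add_zero]
      by_cases hj : j = j0
      · subst hj
        rw [hψ]
        by_cases hi : i = i0
        · by_cases hl : l = l0
          · simp [hi, hl]
          · simp [hi, hl, e2]
        · simp [hi]
      · simp [hj, e1]
    simp only [hval]
    simp
  have hker : Nat.card (LinearMap.ker Λ)
      = (univ.filter fun A : Fin k → Fin n → Fin n → ZMod 3 =>
      ∀ (j : Fin t) (i : Fin s) (l : Fin d), t ≤ (l : ℕ) →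
        Φ j i ⬝ᵥ bs A (w (Fin.castLE htd j)) (w l) = 0).card := by
    refine Nat.subtype_card _ fun A => ?_
    rw [Finset.mem_filter, LinearMap.mem_ker]
    constructor
    · intro hA
      funext j i l
      exact hA.2 j i (ix l) (Nat.le_add_right _ _)
    · intro hA
      refine ⟨Finset.mem_univ _, fun j i l hl => ?_⟩
      have h1 := congrFun (congrFun (congrFun hA j) i) ⟨(l : ℕ) - t, by have := l.2; omega⟩
      have h2 : ix ⟨(l : ℕ) - t, by have := l.2; omega⟩ = l := Fin.ext (by
        change t + ((l : ℕ) - t) = l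
        omega)
      change Φ j i ⬝ᵥ bs A (w (Fin.castLE htd j)) (w (ix _)) = 0 at h1
      rw [h2] at h1
      exact h1
  have hfr : Module.finrank (ZMod 3) (LinearMap.ker Λ) + t * s * (d - t) = k * n * n := by
    have h1 := LinearMap.finrank_range_add_finrank_ker Λ
    rw [LinearMap.range_eq_top.2 hsurj, finrank_top] at h1
    have h2 : Module.finrank (ZMod 3) (Fin t → Fin s → Fin (d - t) → ZMod 3)
        = t * s * (d - t) := by
      rw [Module.finrank_pi_fintype]
      simp only [Module.finrank_pi_fintype, Module.finrank_self, Finset.sum_const,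
        Finset.card_univ, Fintype.card_fin, smul_eq_mul, mul_one]
      ring
    have h3 : Module.finrank (ZMod 3) (Fin k → Fin n → Fin n → ZMod 3) = k * n * n := by
      rw [Module.finrank_pi_fintype]
      simp only [Module.finrank_pi_fintype, Module.finrank_self, Finset.sum_const,
        Finset.card_univ, Fintype.card_fin, smul_eq_mul, mul_one]
      ring
    rw [h2, h3] at h1
    omega
  rw [← hker, Module.natCard_eq_pow_finrank (K := ZMod 3), Nat.card_zmod, ← pow_add, hfr]

end Pool.Agent.Lib.MP_e01d8b_co
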