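import Mathlib

/-! Counting functions `g : F_3^a → F_3^b`. -/

set_option autoImplicit false

open Finset

namespace Pool.Agent.Lib.MP_e01d8b_co

private theorem exists_mult {a : ℕ} (u : Fin 4 → Fin a → ZMod 3) :
    ∃ v : Fin a → ZMod 3, (((univ.filter fun i => u i = v).card : ℕ) : ZMod 3) ≠ 0 := by
  classical
  by_contra hcon
  push Not at hcon
  have h1 : ∑ v : Fin a → ZMod 3, (univ.filter fun i => u i = v).card = 4 := by
    have := Finset.card_eq_sum_card_fiberwise (s := (univ : Finset (Fin 4)))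
      (t := (univ : Finset (Fin a → ZMod 3))) (f := u) (fun i _ => Finset.mem_univ _)
    rw [Finset.card_univ, Fintype.card_fin] at this
    exact this.symm
  have h2 : ((4 : ℕ) : ZMod 3) = 0 := by
    rw [← h1, Nat.cast_sum]
    exact Finset.sum_eq_zero fun v _ => hcon v
  exact absurd h2 (by decide)

/-- For a fixed 4-tuple, `∑ g(u_i) = 0` has probability `3^(-b)`. -/
theorem g_tuple {a b : ℕ} (u : Fin 4 → Fin a → ZMod 3) :
    3 ^ b * (univ.filter fun g : (Fin a → ZMod 3) → Fin b → ZMod 3 => ∑ i, g (u i) = 0).card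
      ≤ Fintype.card ((Fin a → ZMod 3) → Fin b → ZMod 3) := by
  classical
  obtain ⟨v0, hv0⟩ := exists_mult u
  set m : ZMod 3 := (((univ.filter fun i => u i = v0).card : ℕ) : ZMod 3) with hm
  have hupd : ∀ (g : (Fin a → ZMod 3) → Fin b → ZMod 3) (z : Fin b → ZMod 3),
      ∑ i, (Function.update g v0 (g v0 + z)) (u i) = ∑ i, g (u i) + m • z := by
    intro g z
    have : ∀ i, (Function.update g v0 (g v0 + z)) (u i) = g (u i) + if u i = v0 then z else 0 := by
      intro i
      by_cases h : u i = v0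
      · rw [h]; simp
      · simp [Function.update_of_ne h, h]
    rw [Finset.sum_congr rfl fun i _ => this i, Finset.sum_add_distrib]
    congr 1
    rw [← Finset.sum_filter, Finset.sum_const, hm, Nat.cast_smul_eq_nsmul]
  have hinj : Set.InjOn (fun z : ((Fin a → ZMod 3) → Fin b → ZMod 3) × (Fin b → ZMod 3) =>
      Function.update z.1 v0 (z.1 v0 + z.2))
      (((univ.filter fun g : (Fin a → ZMod 3) → Fin b → ZMod 3 => ∑ i, g (u i) = 0) ×ˢ
        (univ : Finset (Fin b → ZMod 3)) : Finset _) : Set _) := by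
    rintro ⟨g, z⟩ hz ⟨g', z'⟩ hz' heq
    simp only [Finset.coe_product, Set.mem_prod, Finset.mem_coe, Finset.mem_filter,
      Finset.mem_univ, true_and, and_true] at hz hz'
    simp only at heq
    have h1 := hupd g z
    have h2 := hupd g' z'
    rw [heq, h2, hz, hz', zero_add, zero_add] at h1
    have hzz : z = z' := by
      have h3 : m⁻¹ • (m • z') = m⁻¹ • (m • z) := by rw [h1]
      rw [smul_smul, smul_smul, inv_mul_cancel₀ hv0, one_smul, one_smul] at h3
      exact h3.symm
    subst hzz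
    have hg : g = g' := by
      funext v
      by_cases hv : v = v0
      · subst hv
        have := congrFun heq v
        simpa using this
      · have := congrFun heq v
        simpa [Function.update_of_ne hv] using this
    rw [hg]
  have hc := Finset.card_le_card_of_injOn (s := (univ.filter fun g : (Fin a → ZMod 3) →
      Fin b → ZMod 3 => ∑ i, g (u i) = 0) ×ˢ (univ : Finset (Fin b → ZMod 3)))
    (t := (univ : Finset ((Fin a → ZMod 3) → Fin b → ZMod 3))) _
    (fun _ _ => Finset.mem_univ _) hinj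
  rw [Finset.card_product, Finset.card_univ, Finset.card_univ] at hc
  have hb : Fintype.card (Fin b → ZMod 3) = 3 ^ b := by simp
  rw [hb] at hc
  rw [mul_comm]
  exact hc

/-- With `b = 3a+1` at least two thirds of the `g` are 4-zero-sum-free. -/
theorem g_bad (a b : ℕ) (hb : b = 3 * a + 1) :
    3 * (univ.filter fun g : (Fin a → ZMod 3) → Fin b → ZMod 3 =>
      ∃ u : Fin 4 → Fin a → ZMod 3, ∑ i, u i = 0 ∧ ∑ i, g (u i) = 0).card
      ≤ Fintype.card ((Fin a → ZMod 3) → Fin b → ZMod 3) := by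
  classical
  set T := Fintype.card ((Fin a → ZMod 3) → Fin b → ZMod 3) with hT
  let U : Finset (Fin 4 → Fin a → ZMod 3) := univ.filter fun u => ∑ i, u i = 0
  have hU : U.card ≤ 3 ^ (3 * a) := by
    have hinj : Set.InjOn (fun (u : Fin 4 → Fin a → ZMod 3) (i : Fin 3) => u i.castSucc)
        (U : Set (Fin 4 → Fin a → ZMod 3)) := by
      intro u hu u' hu' heq
      have h0 : ∀ i : Fin 3, u i.castSucc = u' i.castSucc := fun i => congrFun heq i
      have hs : ∑ i, u i = ∑ i, u' i := by
        rw [(Finset.mem_filter.1 (Finset.mem_coe.1 hu)).2,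
          (Finset.mem_filter.1 (Finset.mem_coe.1 hu')).2]
      rw [Fin.sum_univ_castSucc, Fin.sum_univ_castSucc (f := u')] at hs
      rw [Finset.sum_congr rfl fun i _ => h0 i] at hs
      have hl := add_left_cancel hs
      funext i
      refine Fin.lastCases ?_ (fun j => ?_) i
      · exact hl
      · exact h0 j
    have hc := Finset.card_le_card_of_injOn (s := U)
      (t := (univ : Finset (Fin 3 → Fin a → ZMod 3))) _ (fun _ _ => Finset.mem_univ _) hinj
    rw [Finset.card_univ] at hc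
    have : Fintype.card (Fin 3 → Fin a → ZMod 3) = 3 ^ (3 * a) := by
      simp only [Fintype.card_fun, Fintype.card_fin, ZMod.card]
      rw [← pow_mul]; congr 1; ring
    rwa [this] at hc
  have hsub : (univ.filter fun g : (Fin a → ZMod 3) → Fin b → ZMod 3 =>
      ∃ u : Fin 4 → Fin a → ZMod 3, ∑ i, u i = 0 ∧ ∑ i, g (u i) = 0) ⊆
      U.biUnion fun u => univ.filter fun g : (Fin a → ZMod 3) → Fin b → ZMod 3 =>
        ∑ i, g (u i) = 0 := by
    intro g hg
    obtain ⟨_, u, hu, hgu⟩ := Finset.mem_filter.1 hg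
    exact Finset.mem_biUnion.2 ⟨u, Finset.mem_filter.2 ⟨Finset.mem_univ _, hu⟩,
      Finset.mem_filter.2 ⟨Finset.mem_univ _, hgu⟩⟩
  have h1 := (Finset.card_le_card hsub).trans Finset.card_biUnion_le
  have h2 : 3 ^ b * (3 * (univ.filter fun g : (Fin a → ZMod 3) → Fin b → ZMod 3 =>
      ∃ u : Fin 4 → Fin a → ZMod 3, ∑ i, u i = 0 ∧ ∑ i, g (u i) = 0).card) ≤ 3 ^ b * T := by
    calc _ = 3 * (3 ^ b * (univ.filter fun g : (Fin a → ZMod 3) → Fin b → ZMod 3 =>
            ∃ u : Fin 4 → Fin a → ZMod 3, ∑ i, u i = 0 ∧ ∑ i, g (u i) = 0).card) := by ring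
      _ ≤ 3 * (3 ^ b * ∑ u ∈ U, (univ.filter fun g : (Fin a → ZMod 3) → Fin b → ZMod 3 =>
            ∑ i, g (u i) = 0).card) := by gcongr
      _ = 3 * ∑ u ∈ U, 3 ^ b * (univ.filter fun g : (Fin a → ZMod 3) → Fin b → ZMod 3 =>
            ∑ i, g (u i) = 0).card := by rw [Finset.mul_sum]
      _ ≤ 3 * ∑ u ∈ U, T := by
            refine Nat.mul_le_mul_left _ (Finset.sum_le_sum fun u _ => ?_)
            exact g_tuple u
      _ = 3 * (U.card * T) := by rw [Finset.sum_const, smul_eq_mul]
      _ ≤ 3 * (3 ^ (3 * a) * T) := by gcongr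
      _ = 3 ^ b * T := by rw [hb, pow_succ]; ring
  exact Nat.le_of_mul_le_mul_left h2 (by positivity)

/-- A graph rarely misses a large set. -/
theorem g_miss {a b : ℕ} (S : Finset ((Fin a → ZMod 3) × (Fin b → ZMod 3))) :
    ((univ.filter fun g : (Fin a → ZMod 3) → Fin b → ZMod 3 =>
      ∀ p ∈ S, g p.1 ≠ p.2).card : ℝ)
      ≤ Fintype.card ((Fin a → ZMod 3) → Fin b → ZMod 3) * Real.exp (-(S.card : ℝ) / 3 ^ b) := by
  classical
  let Nu : (Fin a → ZMod 3) → ℕ := fun u => (univ.filter fun w : Fin b → ZMod 3 => (u, w) ∈ S).card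
  have hset : (univ.filter fun g : (Fin a → ZMod 3) → Fin b → ZMod 3 =>
      ∀ p ∈ S, g p.1 ≠ p.2) = Fintype.piFinset fun u : Fin a → ZMod 3 =>
        univ.filter fun w : Fin b → ZMod 3 => (u, w) ∉ S := by
    ext g
    simp only [Finset.mem_filter, Finset.mem_univ, true_and, Fintype.mem_piFinset]
    constructor
    · intro h u hu
      exact h _ hu rfl
    · intro h p hp hgp
      refine h p.1 ?_
      rw [hgp]; exact hp
  have hb : Fintype.card (Fin b → ZMod 3) = 3 ^ b := by simp
  have hcard : ∀ u : Fin a → ZMod 3,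
      ((univ.filter fun w : Fin b → ZMod 3 => (u, w) ∉ S).card : ℝ)
        ≤ 3 ^ b * Real.exp (-(Nu u : ℝ) / 3 ^ b) := by
    intro u
    have h1 : (univ.filter fun w : Fin b → ZMod 3 => (u, w) ∈ S).card
        + (univ.filter fun w : Fin b → ZMod 3 => (u, w) ∉ S).card = 3 ^ b := by
      rw [Finset.card_filter_add_card_filter_not, Finset.card_univ, hb]
    have h2 : ((univ.filter fun w : Fin b → ZMod 3 => (u, w) ∉ S).card : ℝ)
        = 3 ^ b - (Nu u : ℝ) := by
      have : ((Nu u : ℕ) : ℝ) + ((univ.filter fun w : Fin b → ZMod 3 => (u, w) ∉ S).card : ℝ)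
          = 3 ^ b := by exact_mod_cast h1
      linarith
    rw [h2]
    have hP : (0 : ℝ) < 3 ^ b := by positivity
    have h3 := Real.add_one_le_exp (-(Nu u : ℝ) / 3 ^ b)
    have h4 : (3 : ℝ) ^ b - Nu u = 3 ^ b * (-(Nu u : ℝ) / 3 ^ b + 1) := by
      field_simp; ring
    rw [h4]
    exact mul_le_mul_of_nonneg_left h3 hP.le
  have hsumN : ∑ u, Nu u = S.card := by
    have := Finset.card_eq_sum_card_fiberwise (s := S)
      (t := (univ : Finset (Fin a → ZMod 3))) (f := Prod.fst) (fun i _ => Finset.mem_univ _)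
    rw [this]
    refine Finset.sum_congr rfl fun u _ => ?_
    refine Finset.card_bij (fun w _ => (u, w)) ?_ ?_ ?_
    · intro w hw
      exact Finset.mem_filter.2 ⟨(Finset.mem_filter.1 hw).2, rfl⟩
    · intro w _ w' _ h
      exact (Prod.ext_iff.1 h).2
    · rintro ⟨u', w⟩ hp
      obtain ⟨hpS, hpu⟩ := Finset.mem_filter.1 hp
      simp only at hpu
      subst hpu
      exact ⟨w, Finset.mem_filter.2 ⟨Finset.mem_univ _, hpS⟩, rfl⟩
  rw [hset, Fintype.card_piFinset, Nat.cast_prod]
  calc ∏ u : Fin a → ZMod 3, ((univ.filter fun w : Fin b → ZMod 3 => (u, w) ∉ S).card : ℝ)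
      ≤ ∏ u : Fin a → ZMod 3, (3 ^ b * Real.exp (-(Nu u : ℝ) / 3 ^ b)) :=
        Finset.prod_le_prod (fun u _ => Nat.cast_nonneg _) fun u _ => hcard u
    _ = (∏ _u : Fin a → ZMod 3, (3 : ℝ) ^ b) * Real.exp (∑ u, -(Nu u : ℝ) / 3 ^ b) := by
        rw [Finset.prod_mul_distrib, Real.exp_sum]
    _ = Fintype.card ((Fin a → ZMod 3) → Fin b → ZMod 3) * Real.exp (-(S.card : ℝ) / 3 ^ b) := by
        congr 1
        · rw [Finset.prod_const, Finset.card_univ, Fintype.card_fun (α := Fin a → ZMod 3)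
            (β := Fin b → ZMod 3), hb]
          push_cast
          rfl
        · congr 1
          rw [← Finset.sum_div, Finset.sum_neg_distrib, ← hsumN]
          push_cast
          rfl

end Pool.Agent.Lib.MP_e01d8b_co
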