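import Mathlib
import Pool.Agent.Lib.MP_e01d8b_co.Defs

/-! Many vectors with a large kernel give an adapted basis. -/

set_option autoImplicit false

open Finset

namespace Pool.Agent.Lib.MP_e01d8b_co

/-- `q ↦ B(p,q)` on the span of `w`. -/
private def tp {n k d : ℕ} (A : Fin k → Fin n → Fin n → ZMod 3) (w : Fin d → Fin n → ZMod 3)
    (p : Fin d → ZMod 3) : (Fin d → ZMod 3) →ₗ[ZMod 3] (Fin k → ZMod 3) where
  toFun := fun q => bs A (lc w p) (lc w q)
  map_add' := by
    intro q q'
    simp only [bs, lc_add, bil_add_left, bil_add_right]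
    abel
  map_smul' := by
    intro c q
    simp only [bs, lc_smul, bil_smul_left, bil_smul_right, RingHom.id_apply, smul_add]

private theorem kn_eq {n k d : ℕ} (A : Fin k → Fin n → Fin n → ZMod 3)
    (w : Fin d → Fin n → ZMod 3) (p : Fin d → ZMod 3) :
    kn A w p = 3 ^ Module.finrank (ZMod 3) (LinearMap.ker (tp A w p)) := by
  have h1 : Nat.card (LinearMap.ker (tp A w p)) = kn A w p := by
    refine Nat.subtype_card _ fun q => ?_
    rw [Finset.mem_filter, LinearMap.mem_ker]
    exact ⟨fun h => h.2, fun h => ⟨Finset.mem_univ _, h⟩⟩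
  rw [← h1, Module.natCard_eq_pow_finrank (K := ZMod 3), Nat.card_zmod]

private theorem exists_family {d t : ℕ} (L : Finset (Fin d → ZMod 3))
    (hL : t ≤ Module.finrank (ZMod 3) (Submodule.span (ZMod 3) (L : Set (Fin d → ZMod 3)))) :
    ∀ m : ℕ, m ≤ d → ∃ p : Fin m → Fin d → ZMod 3, LinearIndependent (ZMod 3) p ∧
      ∀ j : Fin m, (j : ℕ) < t → p j ∈ L := by
  intro m
  induction m with
  | zero =>
    intro _
    exact ⟨Fin.elim0, linearIndependent_empty_type, fun j => j.elim0⟩
  | succ m ih =>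
    intro hm
    obtain ⟨p, hp, hpL⟩ := ih (by omega)
    have hfr : Module.finrank (ZMod 3) (Submodule.span (ZMod 3) (Set.range p)) = m := by
      rw [finrank_span_eq_card hp, Fintype.card_fin]
    have hx : ∃ x : Fin d → ZMod 3, x ∉ Submodule.span (ZMod 3) (Set.range p) ∧
        (m < t → x ∈ L) := by
      by_cases hmt : m < t
      · by_contra hno
        push Not at hno
        have hsub : Submodule.span (ZMod 3) (L : Set (Fin d → ZMod 3)) ≤
            Submodule.span (ZMod 3) (Set.range p) := by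
          rw [Submodule.span_le]
          intro x hx
          by_contra hxs
          exact (hno x hxs).2 (Finset.mem_coe.1 hx)
        have := Submodule.finrank_mono hsub
        omega
      · by_contra hno
        push Not at hno
        have htop : Submodule.span (ZMod 3) (Set.range p) = ⊤ := by
          rw [eq_top_iff]
          intro x _
          by_contra hxs
          exact hmt (hno x hxs).1
        rw [htop, finrank_top] at hfr
        simp at hfr
        omega
    obtain ⟨x, hxs, hxL⟩ := hx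
    refine ⟨Fin.snoc p x, ?_, ?_⟩
    · exact linearIndependent_finSnoc.2 ⟨hp, hxs⟩
    · intro j
      refine Fin.lastCases ?_ (fun i => ?_) j
      · intro h
        simp only [Fin.snoc_last]
        exact hxL h
      · intro h
        simp only [Fin.snoc_castSucc]
        exact hpL i h

private theorem exists_annih {k r : ℕ} (R : Submodule (ZMod 3) (Fin k → ZMod 3))
    (hR : Module.finrank (ZMod 3) R ≤ r) (hrk : r ≤ k) :
    ∃ Φ : Fin (k - r) → Fin k → ZMod 3, LinearIndependent (ZMod 3) Φ ∧
      ∀ i, ∀ y ∈ R, Φ i ⬝ᵥ y = 0 := by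
  let D : (Fin k → ZMod 3) →ₗ[ZMod 3] (R →ₗ[ZMod 3] ZMod 3) :=
    LinearMap.mk₂ (ZMod 3) (fun (x : Fin k → ZMod 3) (y : R) => x ⬝ᵥ (y : Fin k → ZMod 3))
      (fun x x' y => add_dotProduct _ _ _) (fun c x y => smul_dotProduct _ _ _)
      (fun x y y' => dotProduct_add _ _ _) (fun c x y => dotProduct_smul _ _ _)
  have h1 := LinearMap.finrank_range_add_finrank_ker D
  have h2 : Module.finrank (ZMod 3) (LinearMap.range D) ≤ r := by
    calc _ ≤ Module.finrank (ZMod 3) (R →ₗ[ZMod 3] ZMod 3) := Submodule.finrank_le _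
      _ = Module.finrank (ZMod 3) R := Subspace.dual_finrank_eq
      _ ≤ r := hR
  have h3 : Module.finrank (ZMod 3) (Fin k → ZMod 3) = k := by simp
  have h4 : k - r ≤ Module.finrank (ZMod 3) (LinearMap.ker D) := by omega
  let B := Module.finBasis (ZMod 3) (LinearMap.ker D)
  refine ⟨fun i => (B (Fin.castLE h4 i) : Fin k → ZMod 3), ?_, ?_⟩
  · have h5 : LinearIndependent (ZMod 3) (fun i : Fin (k - r) => B (Fin.castLE h4 i)) :=
      B.linearIndependent.comp _ (Fin.castLE_injective h4)
    exact h5.map' (LinearMap.ker D).subtype (Submodule.ker_subtype _)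
  · intro i y hy
    have h6 := (B (Fin.castLE h4 i)).2
    rw [LinearMap.mem_ker] at h6
    exact LinearMap.congr_fun h6 ⟨y, hy⟩

theorem extract {n k d r t : ℕ} (A : Fin k → Fin n → Fin n → ZMod 3)
    (w : Fin d → Fin n → ZMod 3) (hw : LinearIndependent (ZMod 3) w)
    (hr : r + 1 ≤ d) (hrk : r ≤ k) (ht : t ≤ d - r)
    (hL : 3 ^ (d - r - 1) <
      (univ.filter fun p : Fin d → ZMod 3 => 3 ^ (d - r - 1) < kn A w p).card) :
    ∃ w' : Fin d → Fin n → ZMod 3, LinearIndependent (ZMod 3) w' ∧
      ∀ j : Fin d, (j : ℕ) < t → ∃ Φ : Fin (k - r) → Fin k → ZMod 3,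
        LinearIndependent (ZMod 3) Φ ∧ ∀ i l, Φ i ⬝ᵥ bs A (w' j) (w' l) = 0 := by
  classical
  set L := univ.filter fun p : Fin d → ZMod 3 => 3 ^ (d - r - 1) < kn A w p with hLdef
  have hspan : t ≤ Module.finrank (ZMod 3)
      (Submodule.span (ZMod 3) (L : Set (Fin d → ZMod 3))) := by
    have h1 : L.card ≤ Nat.card (Submodule.span (ZMod 3) (L : Set (Fin d → ZMod 3))) := by
      have h2 : Nat.card (L : Set (Fin d → ZMod 3)) ≤
          Nat.card (Submodule.span (ZMod 3) (L : Set (Fin d → ZMod 3))) :=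
        Nat.card_mono (Set.toFinite _) Submodule.subset_span
      simpa using h2
    rw [Module.natCard_eq_pow_finrank (K := ZMod 3), Nat.card_zmod] at h1
    have h3 := (Nat.pow_lt_pow_iff_right (by norm_num : 1 < 3)).1 (hL.trans_le h1)
    omega
  obtain ⟨p, hp, hpL⟩ := exists_family L hspan d le_rfl
  have hker : LinearMap.ker (Fintype.linearCombination (ZMod 3) w) = ⊥ := by
    rw [LinearMap.ker_eq_bot']
    intro c hc
    exact funext fun i => Fintype.linearIndependent_iff.1 hw c
      (by rw [← hc, Fintype.linearCombination_apply]) i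
  refine ⟨fun j => lc w (p j), ?_, ?_⟩
  · exact hp.map' (Fintype.linearCombination (ZMod 3) w) hker
  · intro j hj
    have hjL := hpL j hj
    have hk := (Finset.mem_filter.1 hjL).2
    rw [kn_eq] at hk
    have h4 := (Nat.pow_lt_pow_iff_right (by norm_num : 1 < 3)).1 hk
    have h5 := LinearMap.finrank_range_add_finrank_ker (tp A w (p j))
    have h6 : Module.finrank (ZMod 3) (Fin d → ZMod 3) = d := by simp
    have h7 : Module.finrank (ZMod 3) (LinearMap.range (tp A w (p j))) ≤ r := by omega
    obtain ⟨Φ, hΦ1, hΦ2⟩ := exists_annih _ h7 hrk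
    exact ⟨Φ, hΦ1, fun i l => hΦ2 i _ (LinearMap.mem_range_self (tp A w (p j)) (p l))⟩

end Pool.Agent.Lib.MP_e01d8b_co
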