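import Mathlib
import Pool.Agent.Lib.MP_e01d8b_co.Coll
import Pool.Agent.Lib.MP_e01d8b_co.Extract
import Pool.Agent.Lib.MP_e01d8b_co.CountA

/-! Existence of a quadratic map with large images on all `d`-dimensional subspaces. -/

set_option autoImplicit false

open Finset

namespace Pool.Agent.Lib.MP_e01d8b_co

theorem existsA (n k d r t : ℕ) (hr : r + 1 ≤ d) (hrk : r ≤ k) (ht : t ≤ d - r)
    (h : n * d + t * (k * (k - r)) < t * (k - r) * (d - t)) :
    ∃ A : Fin k → Fin n → Fin n → ZMod 3, ∀ w : Fin d → Fin n → ZMod 3,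
      LinearIndependent (ZMod 3) w →
      3 ^ (r + 1) ≤ 2 * (univ.image fun c : Fin d → ZMod 3 => qf A (lc w c)).card := by
  classical
  by_contra hcon
  push Not at hcon
  have htd : t ≤ d := ht.trans (Nat.sub_le _ _)
  -- the bad events
  let Bad : (Fin d → Fin n → ZMod 3) × (Fin t → Fin (k - r) → Fin k → ZMod 3) →
      Finset (Fin k → Fin n → Fin n → ZMod 3) := fun z =>
    univ.filter fun A : Fin k → Fin n → Fin n → ZMod 3 =>
      ∀ (j : Fin t) (i : Fin (k - r)) (l : Fin d), t ≤ (l : ℕ) →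
        z.2 j i ⬝ᵥ bs A (z.1 (Fin.castLE htd j)) (z.1 l) = 0
  let Z : Finset ((Fin d → Fin n → ZMod 3) × (Fin t → Fin (k - r) → Fin k → ZMod 3)) :=
    univ.filter fun z => LinearIndependent (ZMod 3) z.1 ∧
      ∀ j, LinearIndependent (ZMod 3) (z.2 j)
  have hcover : (univ : Finset (Fin k → Fin n → Fin n → ZMod 3)) ⊆ Z.biUnion Bad := by
    intro A _
    obtain ⟨w, hw, hlt⟩ := hcon A
    have hL : 3 ^ (d - r - 1) <
        (univ.filter fun p : Fin d → ZMod 3 => 3 ^ (d - r - 1) < kn A w p).card := by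
      by_contra hle
      exact absurd (coll A w hr (not_lt.1 hle)) (not_le.2 hlt)
    obtain ⟨w', hw', hΦ⟩ := extract A w hw hr hrk ht hL
    choose Φ hΦ1 hΦ2 using fun j : Fin t => hΦ (Fin.castLE htd j) (by simp)
    refine Finset.mem_biUnion.2 ⟨(w', Φ), ?_, ?_⟩
    · exact Finset.mem_filter.2 ⟨Finset.mem_univ _, hw', hΦ1⟩
    · exact Finset.mem_filter.2 ⟨Finset.mem_univ _, fun j i l _ => hΦ2 j i l⟩
  have hcardA : (univ : Finset (Fin k → Fin n → Fin n → ZMod 3)).card = 3 ^ (k * n * n) := by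
    rw [Finset.card_univ]
    simp only [Fintype.card_fun, Fintype.card_fin, ZMod.card]
    rw [← pow_mul, ← pow_mul]; congr 1; ring
  have hZ : Z.card ≤ 3 ^ (n * d + t * (k * (k - r))) := by
    calc Z.card ≤ (univ : Finset ((Fin d → Fin n → ZMod 3) ×
            (Fin t → Fin (k - r) → Fin k → ZMod 3))).card := Finset.card_filter_le _ _
      _ = 3 ^ (n * d + t * (k * (k - r))) := by
        rw [Finset.card_univ]
        simp only [Fintype.card_prod, Fintype.card_fun, Fintype.card_fin, ZMod.card]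
        rw [← pow_mul, ← pow_mul, ← pow_mul, ← pow_add]; congr 1; ring
  have h1 : 3 ^ (k * n * n) ≤ ∑ z ∈ Z, (Bad z).card := by
    rw [← hcardA]
    exact (Finset.card_le_card hcover).trans Finset.card_biUnion_le
  have h2 : (∑ z ∈ Z, (Bad z).card) * 3 ^ (t * (k - r) * (d - t))
      ≤ 3 ^ (n * d + t * (k * (k - r))) * 3 ^ (k * n * n) := by
    rw [Finset.sum_mul]
    calc ∑ z ∈ Z, (Bad z).card * 3 ^ (t * (k - r) * (d - t))
        ≤ ∑ z ∈ Z, 3 ^ (k * n * n) := by
          refine Finset.sum_le_sum fun z hz => ?_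
          obtain ⟨_, hz1, hz2⟩ := Finset.mem_filter.1 hz
          exact countA z.1 hz1 z.2 hz2 htd
      _ = Z.card * 3 ^ (k * n * n) := by rw [Finset.sum_const, smul_eq_mul]
      _ ≤ _ := Nat.mul_le_mul_right _ hZ
  have h3 : 3 ^ (k * n * n) * 3 ^ (t * (k - r) * (d - t))
      ≤ 3 ^ (n * d + t * (k * (k - r))) * 3 ^ (k * n * n) :=
    (Nat.mul_le_mul_right _ h1).trans h2
  rw [mul_comm] at h3
  have h4 : 3 ^ (t * (k - r) * (d - t)) ≤ 3 ^ (n * d + t * (k * (k - r))) :=
    Nat.le_of_mul_le_mul_right h3 (by positivity)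
  have h5 : t * (k - r) * (d - t) ≤ n * d + t * (k * (k - r)) :=
    (Nat.pow_le_pow_iff_right (by norm_num : 1 < 3)).1 h4
  omega

end Pool.Agent.Lib.MP_e01d8b_co
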