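import Mathlib
import Pool.Agent.Lib.MP_e01d8b_co.Defs
import Pool.Agent.Lib.MP_e01d8b_co.CountG

/-! Existence of `g`. -/

set_option autoImplicit false

open Finset

namespace Pool.Agent.Lib.MP_e01d8b_co

theorem exists_g {n a b d M : ℕ} (hb : b = 3 * a + 1)
    (A : Fin (a + b) → Fin n → Fin n → ZMod 3)
    (hM : ∀ w : Fin d → Fin n → ZMod 3, LinearIndependent (ZMod 3) w →
      M + 1 ≤ (univ.image fun c : Fin d → ZMod 3 => qf A (lc w c)).card)
    (hnum : (3 : ℝ) ^ (n * d) * Real.exp (-(M : ℝ) / 3 ^ b) < 2 / 3) :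
    ∃ g : (Fin a → ZMod 3) → Fin b → ZMod 3,
      (∀ u : Fin 4 → Fin a → ZMod 3, ∑ i, u i = 0 → ∑ i, g (u i) ≠ 0) ∧
      ∀ w : Fin d → Fin n → ZMod 3, LinearIndependent (ZMod 3) w →
        ∃ c : Fin d → ZMod 3, c ≠ 0 ∧
          (fun i => qf A (lc w c) (Fin.natAdd a i)) =
            g (fun i => qf A (lc w c) (Fin.castAdd b i)) := by
  classical
  by_contra hcon
  let T : ℕ := Fintype.card ((Fin a → ZMod 3) → Fin b → ZMod 3)
  have hT0 : (0 : ℝ) < (T : ℝ) := by
    have : 0 < T := Fintype.card_pos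
    exact_mod_cast this
  let Bad1 : Finset ((Fin a → ZMod 3) → Fin b → ZMod 3) :=
    univ.filter fun g => ∃ u : Fin 4 → Fin a → ZMod 3, ∑ i, u i = 0 ∧ ∑ i, g (u i) = 0
  let pr : (Fin (a + b) → ZMod 3) → (Fin a → ZMod 3) × (Fin b → ZMod 3) := fun q =>
    (fun i => q (Fin.castAdd b i), fun i => q (Fin.natAdd a i))
  have hpr : Function.Injective pr := by
    intro q q' h
    funext i
    refine Fin.addCases (fun j => ?_) (fun j => ?_) i
    · exact congrFun (congrArg Prod.fst h) j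
    · exact congrFun (congrArg Prod.snd h) j
  let S : (Fin d → Fin n → ZMod 3) → Finset ((Fin a → ZMod 3) × (Fin b → ZMod 3)) := fun w =>
    (univ.filter fun c : Fin d → ZMod 3 => c ≠ 0).image fun c => pr (qf A (lc w c))
  have hS : ∀ w : Fin d → Fin n → ZMod 3, LinearIndependent (ZMod 3) w → M ≤ (S w).card := by
    intro w hw
    have h1 := hM w hw
    have h2 : (univ.image fun c : Fin d → ZMod 3 => qf A (lc w c)).card
        = (univ.image fun c : Fin d → ZMod 3 => pr (qf A (lc w c))).card := by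
      rw [← Finset.card_image_of_injective _ hpr, Finset.image_image]
      rfl
    have h3 : (univ.image fun c : Fin d → ZMod 3 => pr (qf A (lc w c))) ⊆
        insert (pr (qf A (lc w 0))) (S w) := by
      intro z hz
      obtain ⟨c, _, rfl⟩ := Finset.mem_image.1 hz
      by_cases hc : c = 0
      · rw [hc]; exact Finset.mem_insert_self _ _
      · exact Finset.mem_insert_of_mem (Finset.mem_image.2
          ⟨c, Finset.mem_filter.2 ⟨Finset.mem_univ _, hc⟩, rfl⟩)
    have h4 := (Finset.card_le_card h3).trans (Finset.card_insert_le _ _)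
    omega
  let Bad2 : (Fin d → Fin n → ZMod 3) → Finset ((Fin a → ZMod 3) → Fin b → ZMod 3) := fun w =>
    univ.filter fun g => ∀ p ∈ S w, g p.1 ≠ p.2
  let Wl : Finset (Fin d → Fin n → ZMod 3) := univ.filter fun w => LinearIndependent (ZMod 3) w
  have hcover : (univ : Finset ((Fin a → ZMod 3) → Fin b → ZMod 3)) ⊆ Bad1 ∪ Wl.biUnion Bad2 := by
    intro g _
    by_contra hg
    rw [Finset.mem_union, not_or] at hg
    refine hcon ⟨g, ?_, ?_⟩
    · intro u hu hu'
      exact hg.1 (Finset.mem_filter.2 ⟨Finset.mem_univ _, u, hu, hu'⟩)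
    · intro w hw
      by_contra hno
      refine hg.2 (Finset.mem_biUnion.2 ⟨w, Finset.mem_filter.2 ⟨Finset.mem_univ _, hw⟩, ?_⟩)
      refine Finset.mem_filter.2 ⟨Finset.mem_univ _, ?_⟩
      intro p hp hgp
      obtain ⟨c, hc, rfl⟩ := Finset.mem_image.1 hp
      exact hno ⟨c, (Finset.mem_filter.1 hc).2, hgp.symm⟩
  have h1 : (T : ℝ) ≤ Bad1.card + ∑ w ∈ Wl, ((Bad2 w).card : ℝ) := by
    have : T ≤ Bad1.card + ∑ w ∈ Wl, (Bad2 w).card := by
      calc T = (univ : Finset ((Fin a → ZMod 3) → Fin b → ZMod 3)).card := rfl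
        _ ≤ (Bad1 ∪ Wl.biUnion Bad2).card := Finset.card_le_card hcover
        _ ≤ Bad1.card + (Wl.biUnion Bad2).card := Finset.card_union_le _ _
        _ ≤ _ := Nat.add_le_add_left Finset.card_biUnion_le _
    exact_mod_cast this
  have hB1 : (Bad1.card : ℝ) ≤ T / 3 := by
    have : 3 * Bad1.card ≤ T := g_bad a b hb
    have h' : (3 : ℝ) * Bad1.card ≤ T := by exact_mod_cast this
    linarith
  have hB2 : ∑ w ∈ Wl, ((Bad2 w).card : ℝ) ≤ (3 : ℝ) ^ (n * d) * (T * Real.exp (-(M : ℝ) / 3 ^ b)) := by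
    calc ∑ w ∈ Wl, ((Bad2 w).card : ℝ) ≤ ∑ w ∈ Wl, (T * Real.exp (-(M : ℝ) / 3 ^ b)) := by
          refine Finset.sum_le_sum fun w hw => ?_
          refine (g_miss (S w)).trans ?_
          refine mul_le_mul_of_nonneg_left (Real.exp_le_exp.2 ?_) hT0.le
          have hMw : (M : ℝ) ≤ ((S w).card : ℝ) := by
            exact_mod_cast hS w (Finset.mem_filter.1 hw).2
          exact div_le_div_of_nonneg_right (by linarith) (by positivity)
      _ = (Wl.card : ℝ) * (T * Real.exp (-(M : ℝ) / 3 ^ b)) := by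
          rw [Finset.sum_const, nsmul_eq_mul]
      _ ≤ _ := by
          refine mul_le_mul_of_nonneg_right ?_ (by positivity)
          have : Wl.card ≤ 3 ^ (n * d) := by
            calc Wl.card ≤ (univ : Finset (Fin d → Fin n → ZMod 3)).card :=
                  Finset.card_filter_le _ _
              _ = 3 ^ (n * d) := by
                rw [Finset.card_univ]
                simp only [Fintype.card_fun, Fintype.card_fin, ZMod.card]
                rw [← pow_mul]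
          exact_mod_cast this
  have h2 : (3 : ℝ) ^ (n * d) * (T * Real.exp (-(M : ℝ) / 3 ^ b))
      = T * ((3 : ℝ) ^ (n * d) * Real.exp (-(M : ℝ) / 3 ^ b)) := by ring
  rw [h2] at hB2
  have h3 : T * ((3 : ℝ) ^ (n * d) * Real.exp (-(M : ℝ) / 3 ^ b)) < T * (2 / 3) :=
    mul_lt_mul_of_pos_left hnum hT0
  linarith

private theorem pow3_bound (l : ℕ) (hl : 15 ≤ l) :
    4 * (16 * l ^ 2 * (48 * l + 1)) + 6 ≤ 3 ^ l := by
  induction l, hl using Nat.le_induction with
  | base => norm_num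
  | succ k hk ih =>
    have h1 : 4 * (16 * (k + 1) ^ 2 * (48 * (k + 1) + 1)) + 6
        ≤ 3 * (4 * (16 * k ^ 2 * (48 * k + 1)) + 6) := by
      obtain ⟨j, rfl⟩ : ∃ j, k = j + 15 := ⟨k - 15, by omega⟩
      ring_nf
      nlinarith [Nat.zero_le j, Nat.zero_le (j ^ 2), Nat.zero_le (j ^ 3)]
    calc _ ≤ 3 * (4 * (16 * k ^ 2 * (48 * k + 1)) + 6) := h1
      _ ≤ 3 * 3 ^ k := Nat.mul_le_mul_left _ ih
      _ = 3 ^ (k + 1) := by ring

/-- numerical condition. -/
theorem num_cond {n l M : ℕ} (hl : 15 ≤ l) (hn : n ≤ 16 * l ^ 2)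
    (hM : 3 ^ (13 * l + 1) ≤ 2 * (M + 1)) :
    (3 : ℝ) ^ (n * (48 * l + 1)) * Real.exp (-(M : ℝ) / 3 ^ (12 * l + 1)) < 2 / 3 := by
  set N := n * (48 * l + 1) with hN
  have hN1 : 4 * N + 6 ≤ 3 ^ l := by
    have h1 : N ≤ 16 * l ^ 2 * (48 * l + 1) := Nat.mul_le_mul_right _ hn
    have h2 := pow3_bound l hl
    omega
  have hN2 : (4 : ℝ) * N + 6 ≤ 3 ^ l := by exact_mod_cast hN1
  have hM2 : (3 : ℝ) ^ (13 * l + 1) ≤ 2 * ((M : ℝ) + 1) := by exact_mod_cast hM
  have hP : (0 : ℝ) < 3 ^ (12 * l + 1) := by positivity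
  have hP1 : (1 : ℝ) ≤ 3 ^ (12 * l + 1) := one_le_pow₀ (by norm_num)
  have hsplit : (3 : ℝ) ^ (13 * l + 1) = 3 ^ l * 3 ^ (12 * l + 1) := by
    rw [← pow_add]; congr 1; ring
  have hdiv : 2 * (N : ℝ) + 2 ≤ (M : ℝ) / 3 ^ (12 * l + 1) := by
    rw [le_div_iff₀ hP]
    rw [hsplit] at hM2
    nlinarith
  have h3e : (3 : ℝ) ≤ Real.exp 2 := by
    have h1 := Real.add_one_le_exp (2 : ℝ)
    linarith
  have hexp : Real.exp (-(M : ℝ) / 3 ^ (12 * l + 1)) ≤ Real.exp (-(2 * (N : ℝ) + 2)) := by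
    refine Real.exp_le_exp.2 ?_
    rw [neg_div]; linarith
  have hpow : (3 : ℝ) ^ N ≤ Real.exp (2 * (N : ℝ)) := by
    calc (3 : ℝ) ^ N ≤ (Real.exp 2) ^ N := pow_le_pow_left₀ (by norm_num) h3e N
      _ = Real.exp (2 * (N : ℝ)) := by rw [← Real.exp_nat_mul]; ring_nf
  calc (3 : ℝ) ^ N * Real.exp (-(M : ℝ) / 3 ^ (12 * l + 1))
      ≤ Real.exp (2 * (N : ℝ)) * Real.exp (-(2 * (N : ℝ) + 2)) :=
        mul_le_mul hpow hexp (Real.exp_pos _).le (Real.exp_pos _).le
    _ = Real.exp (-2) := by rw [← Real.exp_add]; congr 1; ring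
    _ ≤ 1 / 3 := by
        rw [Real.exp_neg, ← one_div]
        exact one_div_le_one_div_of_le (by norm_num) h3e
    _ < 2 / 3 := by norm_num

end Pool.Agent.Lib.MP_e01d8b_co
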