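import Mathlib
import Pool.Agent.Lib.MP_e01d8b_co.ExistsA
import Pool.Agent.Lib.MP_e01d8b_co.ExistsG

/-! The quadratic lower bound. -/

set_option autoImplicit false

open Finset

namespace Pool.Agent.Lib.MP_e01d8b_co

/-- A colouring of the lines without blue plane and without red `d`-space. -/
theorem colouring {n l d : ℕ} (hl : 15 ≤ l) (hn : n ≤ 16 * l ^ 2) (hd : 48 * l + 1 ≤ d) :
    ∃ blue : Submodule (ZMod 3) (Fin n → ZMod 3) → Prop,
      (∀ V : Submodule (ZMod 3) (Fin n → ZMod 3), Module.finrank (ZMod 3) V = d →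
        ∃ L ≤ V, Module.finrank (ZMod 3) L = 1 ∧ blue L) ∧
      (∀ W : Submodule (ZMod 3) (Fin n → ZMod 3), Module.finrank (ZMod 3) W = 2 →
        ∃ L ≤ W, Module.finrank (ZMod 3) L = 1 ∧ ¬ blue L) := by
  classical
  have e1 : 4 * l + (12 * l + 1) - 13 * l = 3 * l + 1 := by omega
  have e2 : 48 * l + 1 - 16 * l = 32 * l + 1 := by omega
  obtain ⟨A, hA⟩ := existsA n (4 * l + (12 * l + 1)) (48 * l + 1) (13 * l) (16 * l)
    (by omega) (by omega) (by omega) (by
      rw [e1, e2]
      have h1 : n * (48 * l + 1) ≤ 16 * l ^ 2 * (48 * l + 1) := Nat.mul_le_mul_right _ hn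
      have h2 : 0 < l ^ 2 := by positivity
      nlinarith)
  set M : ℕ := (3 ^ (13 * l + 1) + 1) / 2 - 1 with hM
  have hp : 1 ≤ 3 ^ (13 * l + 1) := Nat.one_le_pow _ _ (by norm_num)
  obtain ⟨g, hg1, hg2⟩ := exists_g (n := n) (a := 4 * l) (b := 12 * l + 1) (d := 48 * l + 1)
    (M := M) (by ring) A
    (fun w hw => by have := hA w hw; omega)
    (num_cond hl hn (by omega))
  let Q1 : (Fin n → ZMod 3) → Fin (4 * l) → ZMod 3 := fun v i =>
    qf A v (Fin.castAdd (12 * l + 1) i)
  let Q2 : (Fin n → ZMod 3) → Fin (12 * l + 1) → ZMod 3 := fun v i =>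
    qf A v (Fin.natAdd (4 * l) i)
  refine ⟨fun L => ∃ v ∈ L, v ≠ 0 ∧ Q2 v = g (Q1 v), ?_, ?_⟩
  · intro V hV
    let B := Module.finBasisOfFinrankEq (ZMod 3) V hV
    let w : Fin (48 * l + 1) → Fin n → ZMod 3 := fun i => (B (Fin.castLE hd i) : Fin n → ZMod 3)
    have hw : LinearIndependent (ZMod 3) w := by
      have h1 : LinearIndependent (ZMod 3) (fun i : Fin (48 * l + 1) => B (Fin.castLE hd i)) :=
        B.linearIndependent.comp _ (Fin.castLE_injective hd)
      exact h1.map' V.subtype (Submodule.ker_subtype V)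
    obtain ⟨c, hc, hcg⟩ := hg2 w hw
    have hvV : lc w c ∈ V := by
      refine Submodule.sum_mem _ fun i _ => V.smul_mem _ ?_
      exact (B (Fin.castLE hd i)).2
    have hv0 : lc w c ≠ 0 := by
      intro h0
      exact hc (funext fun i => Fintype.linearIndependent_iff.1 hw c h0 i)
    refine ⟨Submodule.span (ZMod 3) {lc w c}, ?_, finrank_span_singleton hv0, lc w c, ?_, hv0, hcg⟩
    · rw [Submodule.span_singleton_le_iff_mem]; exact hvV
    · exact Submodule.mem_span_singleton_self _
  · intro W hW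
    by_contra hcon
    push Not at hcon
    have key : ∀ v ∈ W, v ≠ 0 → Q2 v = g (Q1 v) := by
      intro v hv hv0
      obtain ⟨v', hv', hv'0, hb⟩ := hcon (Submodule.span (ZMod 3) {v})
        (by rw [Submodule.span_singleton_le_iff_mem]; exact hv) (finrank_span_singleton hv0)
      obtain ⟨c, rfl⟩ := Submodule.mem_span_singleton.1 hv'
      have hall : ∀ c : ZMod 3, c = 0 ∨ c = 1 ∨ c = -1 := by decide
      have hc := hall c
      rcases hc with rfl | rfl | rfl
      · simp at hv'0
      · simpa using hb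
      · have hQ : qf A ((-1 : ZMod 3) • v) = qf A v := by
          rw [neg_one_smul, qf_neg]
        have q1 : Q1 ((-1 : ZMod 3) • v) = Q1 v := by
          funext i; exact congrFun hQ _
        have q2 : Q2 ((-1 : ZMod 3) • v) = Q2 v := by
          funext i; exact congrFun hQ _
        rw [← q1, ← q2]; exact hb
    let B := Module.finBasisOfFinrankEq (ZMod 3) W hW
    have hli : LinearIndependent (ZMod 3) (fun i : Fin 2 => (B i : Fin n → ZMod 3)) :=
      B.linearIndependent.map' W.subtype (Submodule.ker_subtype W)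
    set x : Fin n → ZMod 3 := (B 0 : Fin n → ZMod 3) with hx
    set y : Fin n → ZMod 3 := (B 1 : Fin n → ZMod 3) with hy
    have hlc : ∀ s t : ZMod 3, s • x + t • y = 0 → s = 0 ∧ t = 0 := by
      intro s t hst
      have h1 := Fintype.linearIndependent_iff.1 hli ![s, t] (by
        rw [Fin.sum_univ_two]; simpa using hst)
      exact ⟨by simpa using h1 0, by simpa using h1 1⟩
    have hxW : x ∈ W := (B 0).2
    have hyW : y ∈ W := (B 1).2
    have hx0 : x ≠ 0 := by
      intro h
      have := (hlc 1 0 (by simp [h])).1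
      exact absurd this (by decide)
    have hy0 : y ≠ 0 := by
      intro h
      have := (hlc 0 1 (by simp [h])).2
      exact absurd this (by decide)
    have hxy0 : x + y ≠ 0 := by
      intro h
      have := (hlc 1 1 (by simpa using h)).1
      exact absurd this (by decide)
    have hxy1 : x - y ≠ 0 := by
      intro h
      have := (hlc 1 (-1) (by rw [neg_one_smul, one_smul, ← sub_eq_add_neg]; exact h)).1
      exact absurd this (by decide)
    have hpl := qf_plane A x y
    refine hg1 ![Q1 x, Q1 y, Q1 (x + y), Q1 (x - y)] ?_ ?_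
    · rw [Fin.sum_univ_four]
      funext i
      exact congrFun hpl (Fin.castAdd (12 * l + 1) i)
    · rw [Fin.sum_univ_four]
      have : g (Q1 x) + g (Q1 y) + g (Q1 (x + y)) + g (Q1 (x - y)) = 0 := by
        rw [← key x hxW hx0, ← key y hyW hy0, ← key _ (W.add_mem hxW hyW) hxy0,
          ← key _ (W.sub_mem hxW hyW) hxy1]
        funext i
        exact congrFun hpl (Fin.natAdd (4 * l) i)
      exact this

theorem quad_lower (d n : ℕ) (hd : 1 ≤ d)
    (h : ∀ blue : Submodule (ZMod 3) (Fin n → ZMod 3) → Prop,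
      (∃ V : Submodule (ZMod 3) (Fin n → ZMod 3), Module.finrank (ZMod 3) V = d ∧
        ∀ L ≤ V, Module.finrank (ZMod 3) L = 1 → ¬ blue L) ∨
      (∃ W : Submodule (ZMod 3) (Fin n → ZMod 3), Module.finrank (ZMod 3) W = 2 ∧
        ∀ L ≤ W, Module.finrank (ZMod 3) L = 1 → blue L)) :
    d ^ 2 ≤ 721 * n ∧ (721 ≤ d → (d - 48) ^ 2 < 144 * n) := by
  -- trivial bound
  have hdn : d ≤ n := by
    rcases h (fun _ => False) with ⟨V, hV, _⟩ | ⟨W, hW, hWb⟩
    · rw [← hV]
      calc Module.finrank (ZMod 3) V ≤ Module.finrank (ZMod 3) (Fin n → ZMod 3) :=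
            Submodule.finrank_le V
        _ = n := by simp
    · exfalso
      have hne : W ≠ ⊥ := by
        rintro rfl
        simp at hW
      obtain ⟨v, hv, hv0⟩ := Submodule.exists_mem_ne_zero_of_ne_bot hne
      exact hWb (Submodule.span (ZMod 3) {v})
        (by rw [Submodule.span_singleton_le_iff_mem]; exact hv) (finrank_span_singleton hv0)
  have hbig : 721 ≤ d → (d - 48) ^ 2 < 144 * n := by
    intro h721
    set l := (d - 1) / 48 with hl
    have hl15 : 15 ≤ l := by omega
    have hld : 48 * l + 1 ≤ d := by omega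
    have hld' : d - 48 ≤ 48 * l := by omega
    have hn : 16 * l ^ 2 < n := by
      by_contra hle
      obtain ⟨blue, hb1, hb2⟩ := colouring hl15 (not_lt.1 hle) hld
      rcases h blue with ⟨V, hV, hVb⟩ | ⟨W, hW, hWb⟩
      · obtain ⟨L, hL, hL1, hLb⟩ := hb1 V hV
        exact hVb L hL hL1 hLb
      · obtain ⟨L, hL, hL1, hLb⟩ := hb2 W hW
        exact hLb (hWb L hL hL1)
    calc (d - 48) ^ 2 ≤ (48 * l) ^ 2 := Nat.pow_le_pow_left hld' 2
      _ = 144 * (16 * l ^ 2) := by ring
      _ < 144 * n := by omega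
  refine ⟨?_, hbig⟩
  by_cases h721 : d ≤ 721
  · calc d ^ 2 = d * d := sq d
      _ ≤ 721 * n := Nat.mul_le_mul h721 hdn
  · have h1 := hbig (by omega)
    obtain ⟨e, rfl⟩ : ∃ e, d = e + 48 := ⟨d - 48, by omega⟩
    have he : e + 48 - 48 = e := by omega
    rw [he] at h1
    have h2 : 673 ≤ e := by omega
    have h3 : 5 * e ^ 2 ≤ 720 * n := by omega
    nlinarith

end Pool.Agent.Lib.MP_e01d8b_co
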